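import Pool.Agent.H52.XR2.S2

/-!
# Project XR2, row G2S: an open set of symmetries gives all
-/

set_option autoImplicit false

open MeasureTheory Set Filter Topology Metric
open scoped Real ENNReal RealInnerProductSpace

namespace Pool.XR2

open Pool.Agent.H45.XR

namespace G2SAux

/-- the coordinates of `x` in the plane of `w`, `w'` -/
noncomputable def L (w w' x : E3) : ℂ := ⟨⟪w, x⟫, ⟪w', x⟫⟩

/-- the action of a planar map on the plane of `w`, `w'` -/
noncomputable def act (w w' : E3) (g : ℂ → ℂ) (x : E3) : E3 :=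
  x + (g (L w w' x) - L w w' x).re • w + (g (L w w' x) - L w w' x).im • w'

lemma L_act {w w' : E3} (hw : ‖w‖ = 1) (hw' : ‖w'‖ = 1) (h : ⟪w, w'⟫ = 0) (g : ℂ → ℂ) (x : E3) :
    L w w' (act w w' g x) = g (L w w' x) := by
  have hnn : ⟪w, w⟫ = (1 : ℝ) := by rw [real_inner_self_eq_norm_sq, hw]; norm_num
  have hqq : ⟪w', w'⟫ = (1 : ℝ) := by rw [real_inner_self_eq_norm_sq, hw']; norm_num
  have hqn : ⟪w', w⟫ = (0 : ℝ) := by rw [real_inner_comm]; exact h
  apply Complex.ext
  · show ⟪w, act w w' g x⟫ = _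
    unfold act
    rw [inner_add_right, inner_add_right, real_inner_smul_right, real_inner_smul_right, hnn, h]
    simp [L]
  · show ⟪w', act w w' g x⟫ = _
    unfold act
    rw [inner_add_right, inner_add_right, real_inner_smul_right, real_inner_smul_right, hqn, hqq]
    simp [L]

lemma act_act {w w' : E3} (hw : ‖w‖ = 1) (hw' : ‖w'‖ = 1) (h : ⟪w, w'⟫ = 0) (g k : ℂ → ℂ)
    (x : E3) : act w w' g (act w w' k x) = act w w' (g ∘ k) x := by
  have e := L_act hw hw' h k x
  have e1 : act w w' g (act w w' k x) = act w w' k x +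
      (g (L w w' (act w w' k x)) - L w w' (act w w' k x)).re • w +
      (g (L w w' (act w w' k x)) - L w w' (act w w' k x)).im • w' := rfl
  rw [e1, e]
  unfold act
  simp only [Function.comp_apply, Complex.sub_re, Complex.sub_im]
  module

lemma act_refl {w w' : E3} (ψ : ℝ) (x : E3) :
    act w w' (fun z => -Complex.exp ((2 * ψ : ℝ) * Complex.I) * (starRingEnd ℂ) z) x =
      x - (2 * ⟪Real.cos ψ • w + Real.sin ψ • w', x⟫) • (Real.cos ψ • w + Real.sin ψ • w') := by
  have e1 : (-Complex.exp ((2 * ψ : ℝ) * Complex.I) * (starRingEnd ℂ) (L w w' x) - L w w' x).re =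
      -(2 * (Real.cos ψ * ⟪w, x⟫ + Real.sin ψ * ⟪w', x⟫) * Real.cos ψ) := by
    have hs := Real.sin_sq_add_cos_sq ψ
    simp only [L, Complex.sub_re, Complex.mul_re, Complex.neg_re, Complex.neg_im,
      Complex.exp_ofReal_mul_I_re, Complex.exp_ofReal_mul_I_im, Complex.conj_re, Complex.conj_im]
    rw [Real.cos_two_mul, Real.sin_two_mul]
    ring
  have e2 : (-Complex.exp ((2 * ψ : ℝ) * Complex.I) * (starRingEnd ℂ) (L w w' x) - L w w' x).im =
      -(2 * (Real.cos ψ * ⟪w, x⟫ + Real.sin ψ * ⟪w', x⟫) * Real.sin ψ) := by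
    have hs := Real.sin_sq_add_cos_sq ψ
    simp only [L, Complex.sub_im, Complex.mul_im, Complex.neg_re, Complex.neg_im,
      Complex.exp_ofReal_mul_I_re, Complex.exp_ofReal_mul_I_im, Complex.conj_re, Complex.conj_im]
    rw [Real.cos_two_mul, Real.sin_two_mul]
    have : Real.cos ψ ^ 2 = 1 - Real.sin ψ ^ 2 := by linarith
    rw [this]
    ring
  unfold act
  rw [e1, e2, inner_add_left, real_inner_smul_left, real_inner_smul_left]
  module

end G2SAux

open G2SAux in
theorem t_g2s : G2SStmt := by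
  intro K u w w' huw huw' hww' hne
  have hw := huw.2.1
  have hw' := huw'.2.1
  set P : (ℂ → ℂ) → Prop := fun g => ∀ x, xl K u (act w w' g x) = xl K u x with hP
  have hmul : ∀ g k, P g → P k → P (g ∘ k) := by
    intro g k hg hk x
    rw [← act_act hw hw' hww', hg, hk]
  set rf : ℝ → ℂ → ℂ := fun ψ z => -Complex.exp ((2 * ψ : ℝ) * Complex.I) * (starRingEnd ℂ) z
    with hrf
  set rt : ℝ → ℂ → ℂ := fun θ z => Complex.exp ((θ : ℝ) * Complex.I) * z with hrt
  have hS : ∀ ψ, P (rf ψ) ↔ SymR K u (Real.cos ψ • w + Real.sin ψ • w') := by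
    intro ψ
    simp only [hP, hrf, act_refl, SymR]
  have hc1 : ∀ ψ ψ', rf ψ ∘ rf ψ' = rt (2 * (ψ - ψ')) := by
    intro ψ ψ'
    funext z
    have e1 : (starRingEnd ℂ) (Complex.exp ((2 * ψ' : ℝ) * Complex.I)) =
        Complex.exp (-((2 * ψ' : ℝ) * Complex.I)) := by
      rw [← Complex.exp_conj, map_mul, Complex.conj_ofReal, Complex.conj_I, mul_neg]
    simp only [hrf, hrt, Function.comp_apply, map_mul, map_neg, Complex.conj_conj, e1]
    have e2 : Complex.exp (((2 * (ψ - ψ') : ℝ) : ℂ) * Complex.I) =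
        Complex.exp ((2 * ψ : ℝ) * Complex.I) * Complex.exp (-((2 * ψ' : ℝ) * Complex.I)) := by
      rw [← Complex.exp_add]
      congr 1
      push_cast
      ring
    rw [e2]
    ring
  have hc2 : ∀ a b, rt a ∘ rt b = rt (a + b) := by
    intro a b
    funext z
    simp only [hrt, Function.comp_apply]
    push_cast
    rw [add_mul, Complex.exp_add]
    ring
  have hc3 : ∀ θ ψ, rt θ ∘ rf ψ = rf (ψ + θ / 2) := by
    intro θ ψ
    funext z
    simp only [hrt, hrf, Function.comp_apply]
    have e2 : Complex.exp (((2 * (ψ + θ / 2) : ℝ) : ℂ) * Complex.I) =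
        Complex.exp ((θ : ℝ) * Complex.I) * Complex.exp ((2 * ψ : ℝ) * Complex.I) := by
      rw [← Complex.exp_add]
      congr 1
      push_cast
      ring
    rw [e2]
    ring
  obtain ⟨a, ha⟩ := hne
  obtain ⟨ε, hε, hball⟩ := Metric.isOpen_iff.1 isOpen_interior a ha
  have hPa : P (rf a) := (hS a).2 (interior_subset ha)
  have hsmall : ∀ θ : ℝ, |θ| < 2 * ε → P (rt θ) := by
    intro θ hθ
    have h1 : a + θ / 2 ∈ ball a ε := by
      rw [mem_ball, Real.dist_eq]
      have : a + θ / 2 - a = θ / 2 := by ring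
      rw [this, abs_div, abs_of_pos (by norm_num : (0 : ℝ) < 2)]
      linarith
    have h2 := (hS _).2 (interior_subset (hball h1))
    have h3 := hmul _ _ h2 hPa
    rw [hc1] at h3
    have : 2 * (a + θ / 2 - a) = θ := by ring
    rwa [this] at h3
  have hn : ∀ (n : ℕ) (θ : ℝ), |θ| < 2 * ε → P (rt (n * θ)) := by
    intro n θ hθ
    induction n with
    | zero =>
      refine hsmall _ ?_
      simp only [Nat.cast_zero, zero_mul, abs_zero]
      positivity
    | succ n ih =>
      have := hmul _ _ ih (hsmall θ hθ)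
      rw [hc2] at this
      have e : (n : ℝ) * θ + θ = ((n + 1 : ℕ) : ℝ) * θ := by push_cast; ring
      rwa [e] at this
  have hall : ∀ θ : ℝ, P (rt θ) := by
    intro θ
    obtain ⟨n, hn'⟩ := exists_nat_gt (|θ| / (2 * ε))
    have hn0 : (0 : ℝ) < n := lt_of_le_of_lt (by positivity) hn'
    have h1 : |θ / n| < 2 * ε := by
      rw [abs_div, Nat.abs_cast, div_lt_iff₀ hn0]
      rw [div_lt_iff₀ (by positivity)] at hn'
      linarith
    have := hn n (θ / n) h1
    rwa [mul_div_cancel₀ _ hn0.ne'] at this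
  intro ψ
  rw [← hS]
  have h1 := hmul _ _ (hall (2 * (ψ - a))) hPa
  rw [hc3] at h1
  have : a + 2 * (ψ - a) / 2 = ψ := by ring
  rwa [this] at h1

end Pool.XR2
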