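import Pool.Agent.H52.XR2.S2

/-!
# Project XR2, row G3S: infinitely many half-turns give a plane of symmetry
-/

set_option autoImplicit false

open MeasureTheory Set Filter Topology Metric
open scoped Real ENNReal RealInnerProductSpace

namespace Pool.XR2

open Pool.Agent.H45.XR

namespace G3SAux

/-- the half-turn -/
noncomputable def H (n x : E3) : E3 := (2 * ⟪n, x⟫) • n - x

/-- the axes of the half-turns which preserve `K` -/
def NN (K : Set E3) : Set E3 := {n | ‖n‖ = 1 ∧ ∀ x ∈ K, (2 * ⟪n, x⟫) • n - x ∈ K}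

lemma inner_H (n x y : E3) : ⟪H n x, y⟫ = ⟪x, H n y⟫ := by
  unfold H
  simp only [inner_sub_left, inner_sub_right, inner_smul_left, inner_smul_right]
  rw [real_inner_comm x n]
  simp
  ring

lemma H_H (n x : E3) (hn : ‖n‖ = 1) : H n (H n x) = x := by
  unfold H
  have h1 : ⟪n, n⟫ = (1 : ℝ) := by rw [real_inner_self_eq_norm_sq, hn]; norm_num
  simp only [inner_sub_right, inner_smul_right, h1]
  module

lemma norm_H (n x : E3) (hn : ‖n‖ = 1) : ‖H n x‖ = ‖x‖ := by
  have h : ⟪H n x, H n x⟫ = ⟪x, x⟫ := by rw [inner_H n x _, H_H n x hn]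
  rw [real_inner_self_eq_norm_sq, real_inner_self_eq_norm_sq] at h
  exact (sq_eq_sq₀ (norm_nonneg _) (norm_nonneg _)).1 h

lemma H_conj (n m x : E3) (hn : ‖n‖ = 1) :
    H (H n m) x = H n (H m (H n x)) := by
  have h1 : ⟪H n m, x⟫ = ⟪m, H n x⟫ := inner_H n m x
  have h2 : ∀ (c : ℝ) (y z : E3), H n (c • y - z) = c • H n y - H n z := by
    intro c y z
    unfold H
    simp only [inner_sub_right, inner_smul_right]
    module
  show (2 * ⟪H n m, x⟫) • H n m - x = H n ((2 * ⟪m, H n x⟫) • m - H n x)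
  rw [h2, H_H n x hn, h1]

lemma mem_H {K : Set E3} {n m : E3} (hn : n ∈ NN K) (hm : m ∈ NN K) : H n m ∈ NN K := by
  refine ⟨by rw [norm_H n m hn.1, hm.1], fun x hx => ?_⟩
  show H (H n m) x ∈ K
  rw [H_conj n m x hn.1]
  exact hn.2 _ (hm.2 _ (hn.2 _ hx))

lemma closed_NN {K : Set E3} (hK : IsClosed K) : IsClosed (NN K) := by
  have : NN K = {n | ‖n‖ = 1} ∩ ⋂ x ∈ K, {n | (2 * ⟪n, x⟫) • n - x ∈ K} := by
    ext n
    simp [NN]
  rw [this]
  refine IsClosed.inter (isClosed_eq continuous_norm continuous_const) ?_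
  refine isClosed_biInter fun x _ => hK.preimage ?_
  fun_prop

lemma inner_comb {n q : E3} (hn : ‖n‖ = 1) (hq : ‖q‖ = 1) (hnq : ⟪n, q⟫ = 0) (a b c d : ℝ) :
    ⟪a • n + b • q, c • n + d • q⟫ = a * c + b * d := by
  have hnn : ⟪n, n⟫ = (1 : ℝ) := by rw [real_inner_self_eq_norm_sq, hn]; norm_num
  have hqq : ⟪q, q⟫ = (1 : ℝ) := by rw [real_inner_self_eq_norm_sq, hq]; norm_num
  have hqn : ⟪q, n⟫ = (0 : ℝ) := by rw [real_inner_comm]; exact hnq
  rw [inner_add_left, inner_add_right, inner_add_right, real_inner_smul_left,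
    real_inner_smul_left, real_inner_smul_left, real_inner_smul_left, real_inner_smul_right,
    real_inner_smul_right, real_inner_smul_right, real_inner_smul_right, hnn, hqq, hnq, hqn]
  ring

lemma circle {K : Set E3} {n q : E3} {α : ℝ} (hn : n ∈ NN K) (hq : ‖q‖ = 1) (hnq : ⟪n, q⟫ = 0)
    (h1 : Real.cos α • n + Real.sin α • q ∈ NN K) (j : ℕ) :
    Real.cos (j * α) • n + Real.sin (j * α) • q ∈ NN K := by
  induction j using Nat.strong_induction_on with
  | _ j ih =>
    match j, ih with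
    | 0, _ => simpa using hn
    | 1, _ => simpa using h1
    | j + 2, ih =>
      have ha := ih (j + 1) (by omega)
      have hb := ih j (by omega)
      have := mem_H ha hb
      have e : H (Real.cos (((j + 1 : ℕ) : ℝ) * α) • n + Real.sin (((j + 1 : ℕ) : ℝ) * α) • q)
          (Real.cos ((j : ℝ) * α) • n + Real.sin ((j : ℝ) * α) • q) =
          Real.cos (((j + 2 : ℕ) : ℝ) * α) • n + Real.sin (((j + 2 : ℕ) : ℝ) * α) • q := by
        have e1 : ((j + 1 : ℕ) : ℝ) * α = (j : ℝ) * α + α := by push_cast; ring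
        have e2 : ((j + 2 : ℕ) : ℝ) * α = ((j : ℝ) * α + α) + α := by push_cast; ring
        have c0 : Real.cos ((j : ℝ) * α) =
            Real.cos ((j : ℝ) * α + α) * Real.cos α + Real.sin ((j : ℝ) * α + α) * Real.sin α := by
          rw [← Real.cos_sub]; congr 1; ring
        have s0 : Real.sin ((j : ℝ) * α) =
            Real.sin ((j : ℝ) * α + α) * Real.cos α - Real.cos ((j : ℝ) * α + α) * Real.sin α := by
          rw [← Real.sin_sub]; congr 1; ring
        have hs := Real.sin_sq_add_cos_sq ((j : ℝ) * α + α)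
        unfold H
        rw [inner_comb hn.1 hq hnq, e1, e2, Real.cos_add ((j : ℝ) * α + α) α,
          Real.sin_add ((j : ℝ) * α + α) α, c0, s0]
        set C := Real.cos ((j : ℝ) * α + α)
        set S := Real.sin ((j : ℝ) * α + α)
        set c := Real.cos α
        set s := Real.sin α
        have key : C * (C * c + S * s) + S * (S * c - C * s) = c := by
          have : C * (C * c + S * s) + S * (S * c - C * s) = (S ^ 2 + C ^ 2) * c := by ring
          rw [this, hs]; ring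
        rw [key]
        module
      rw [← e]
      exact this

lemma great {K : Set E3} (hK : IsClosed K) (hinf : (NN K).Infinite) :
    ∃ n q : E3, ‖n‖ = 1 ∧ ‖q‖ = 1 ∧ ⟪n, q⟫ = 0 ∧
      ∀ θ : ℝ, 0 ≤ θ → Real.cos θ • n + Real.sin θ • q ∈ NN K := by
  have hcl := closed_NN hK
  have hcomp : IsCompact (NN K) := by
    refine (isCompact_sphere (0 : E3) 1).of_isClosed_subset hcl fun n hn => ?_
    simpa using hn.1
  obtain ⟨n, hn, hacc⟩ := hinf.exists_accPt_of_subset_isCompact hcomp subset_rfl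
  obtain ⟨u, hu, hun, hut⟩ : ∃ u : ℕ → E3, (∀ k, u k ∈ NN K) ∧ (∀ k, u k ≠ n) ∧
      Tendsto u atTop (𝓝 n) := by
    have h := accPt_iff_frequently.1 hacc
    have h' : ∀ k : ℕ, ∃ y, dist y n < 1 / ((k : ℝ) + 1) ∧ y ≠ n ∧ y ∈ NN K := by
      intro k
      have hb : ∀ᶠ y in 𝓝 n, dist y n < 1 / ((k : ℝ) + 1) :=
        Metric.ball_mem_nhds n (by positivity)
      obtain ⟨y, hy, hy'⟩ := (h.and_eventually hb).exists
      exact ⟨y, hy', hy.1, hy.2⟩
    choose u h1 h2 h3 using h'
    refine ⟨u, h3, h2, ?_⟩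
    rw [tendsto_iff_dist_tendsto_zero]
    exact squeeze_zero (fun _ => dist_nonneg) (fun k => (h1 k).le)
      tendsto_one_div_add_atTop_nhds_zero_nat
  -- the inner products tend to `1`
  have hnn : ⟪n, n⟫ = (1 : ℝ) := by rw [real_inner_self_eq_norm_sq, hn.1]; norm_num
  have hip : Tendsto (fun k => ⟪n, u k⟫) atTop (𝓝 (1 : ℝ)) := by
    rw [← hnn]
    exact tendsto_const_nhds.inner hut
  have hlt : ∀ k, ⟪n, u k⟫ < (1 : ℝ) := fun k =>
    (inner_lt_one_iff_real_of_norm_eq_one hn.1 (hu k).1).2 (hun k).symm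
  have hev : ∀ᶠ k in atTop, (-1 : ℝ) < ⟪n, u k⟫ := hip.eventually (lt_mem_nhds (by norm_num))
  obtain ⟨k₀, hk₀⟩ := eventually_atTop.1 hev
  have hm1 : ∀ k, (-1 : ℝ) < ⟪n, u (k + k₀)⟫ := fun k => hk₀ _ (by omega)
  set α : ℕ → ℝ := fun k => Real.arccos ⟪n, u (k + k₀)⟫ with hα
  have hαpos : ∀ k, 0 < α k := fun k => Real.arccos_pos.2 (hlt _)
  have hαpi : ∀ k, α k < π := fun k => by
    rcases lt_or_eq_of_le (Real.arccos_le_pi ⟪n, u (k + k₀)⟫) with h | h
    · exact h
    · exact absurd (Real.arccos_eq_pi.1 h) (not_le.2 (hm1 k))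
  have hcos : ∀ k, Real.cos (α k) = ⟪n, u (k + k₀)⟫ := fun k =>
    Real.cos_arccos (hm1 k).le (hlt _).le
  have hsin : ∀ k, 0 < Real.sin (α k) := fun k => Real.sin_pos_of_pos_of_lt_pi (hαpos k) (hαpi k)
  have hαlim : Tendsto α atTop (𝓝 0) := by
    have h1 : Tendsto (fun k => ⟪n, u (k + k₀)⟫) atTop (𝓝 (1 : ℝ)) :=
      hip.comp (tendsto_add_atTop_nat k₀)
    have h2 := (Real.continuous_arccos.tendsto 1).comp h1
    rw [Real.arccos_one] at h2
    exact h2
  set q : ℕ → E3 := fun k => (1 / Real.sin (α k)) • (u (k + k₀) - Real.cos (α k) • n) with hq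
  have hdec : ∀ k, Real.cos (α k) • n + Real.sin (α k) • q k = u (k + k₀) := by
    intro k
    have : Real.sin (α k) * (1 / Real.sin (α k)) = 1 := by
      rw [mul_one_div, div_self (hsin k).ne']
    simp only [hq, smul_smul, this, one_smul]
    abel
  have hqn : ∀ k, ⟪n, q k⟫ = (0 : ℝ) := by
    intro k
    simp only [hq]
    rw [real_inner_smul_right, inner_sub_right, real_inner_smul_right, hnn, hcos]
    ring
  have hqq : ∀ k, ‖q k‖ = 1 := by
    intro k
    have h1 : ⟪u (k + k₀), u (k + k₀)⟫ = (1 : ℝ) := by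
      rw [real_inner_self_eq_norm_sq, (hu _).1]; norm_num
    have h2 : ⟪q k, q k⟫ = (1 : ℝ) := by
      have h3 : ⟪u (k + k₀) - Real.cos (α k) • n, u (k + k₀) - Real.cos (α k) • n⟫ =
          Real.sin (α k) ^ 2 := by
        rw [inner_sub_left, inner_sub_right, inner_sub_right, real_inner_smul_left,
          real_inner_smul_left, real_inner_smul_right, real_inner_smul_right, hnn, h1,
          real_inner_comm n (u (k + k₀)), ← hcos]
        have := Real.sin_sq_add_cos_sq (α k)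
        nlinarith
      simp only [hq]
      rw [real_inner_smul_left, real_inner_smul_right, h3]
      field_simp
      exact div_self (hsin k).ne'
    rw [real_inner_self_eq_norm_sq] at h2
    nlinarith [norm_nonneg (q k)]
  obtain ⟨q', hq', φ, hφ, hlim⟩ := (isCompact_sphere (0 : E3) 1).tendsto_subseq
    (x := q) (fun k => by simpa using hqq k)
  have hq'1 : ‖q'‖ = 1 := by simpa using hq'
  have hnq' : ⟪n, q'⟫ = (0 : ℝ) := by
    have h1 : Tendsto (fun k => ⟪n, q (φ k)⟫) atTop (𝓝 (⟪n, q'⟫ : ℝ)) :=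
      tendsto_const_nhds.inner hlim
    have h2 : (fun k => (⟪n, q (φ k)⟫ : ℝ)) = fun _ => 0 := by
      funext k; exact hqn _
    rw [h2] at h1
    exact (tendsto_nhds_unique h1 tendsto_const_nhds)
  refine ⟨n, q', hn.1, hq'1, hnq', fun θ hθ => ?_⟩
  set j : ℕ → ℕ := fun k => ⌊θ / α (φ k)⌋₊ with hj
  have hαφ : Tendsto (fun k => α (φ k)) atTop (𝓝 0) := hαlim.comp hφ.tendsto_atTop
  have hjl : Tendsto (fun k => (j k : ℝ) * α (φ k)) atTop (𝓝 θ) := by
    have h1 : ∀ k, (j k : ℝ) * α (φ k) ≤ θ := by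
      intro k
      have := Nat.floor_le (a := θ / α (φ k)) (div_nonneg hθ (hαpos _).le)
      exact (le_div_iff₀ (hαpos _)).1 this
    have h2 : ∀ k, θ - α (φ k) ≤ (j k : ℝ) * α (φ k) := by
      intro k
      have := (Nat.lt_floor_add_one (θ / α (φ k)))
      have := (div_lt_iff₀ (hαpos (φ k))).1 this
      nlinarith
    have h3 : Tendsto (fun k => θ - α (φ k)) atTop (𝓝 θ) := by
      simpa using tendsto_const_nhds.sub hαφ
    exact tendsto_of_tendsto_of_tendsto_of_le_of_le h3 tendsto_const_nhds h2 h1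
  have hmem : ∀ k, Real.cos ((j k : ℝ) * α (φ k)) • n + Real.sin ((j k : ℝ) * α (φ k)) • q (φ k) ∈
      NN K := by
    intro k
    refine circle hn (hqq _) (hqn _) ?_ _
    rw [hdec]
    exact hu _
  have hl : Tendsto (fun k => Real.cos ((j k : ℝ) * α (φ k)) • n +
      Real.sin ((j k : ℝ) * α (φ k)) • q (φ k)) atTop
      (𝓝 (Real.cos θ • n + Real.sin θ • q')) := by
    have h1 := (Real.continuous_cos.tendsto θ).comp hjl
    have h2 := (Real.continuous_sin.tendsto θ).comp hjl
    exact (h1.smul_const n).add (h2.smul hlim)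
  exact hcl.mem_of_tendsto hl (Eventually.of_forall hmem)

end G3SAux

open G3SAux in
theorem t_g3s : G3SStmt := by
  intro K hK hinf
  obtain ⟨n, q, hn, hq, hnq, hall⟩ := great hK.2.1.isClosed hinf
  have hqn : ⟪q, n⟫ = (0 : ℝ) := by rw [real_inner_comm]; exact hnq
  have hnn : ⟪n, n⟫ = (1 : ℝ) := by rw [real_inner_self_eq_norm_sq, hn]; norm_num
  have hqq : ⟪q, q⟫ = (1 : ℝ) := by rw [real_inner_self_eq_norm_sq, hq]; norm_num
  refine ⟨(innerSL ℝ n).toLinearMap, 0, n, ?_, ?_⟩
  · simpa using hnn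
  intro x hx
  have e0 : (innerSL ℝ n).toLinearMap x = ⟪n, x⟫ := rfl
  rw [e0, sub_zero]
  set c : ℝ := ⟪n, x⟫ with hc
  set s : ℝ := ⟪q, x⟫ with hs
  rcases eq_or_ne (c ^ 2 + s ^ 2) 0 with h0 | h0
  · have : c = 0 := by nlinarith [sq_nonneg c, sq_nonneg s]
    rw [this]
    simpa using hx
  -- the angle
  set z : ℂ := ⟨c, s⟩ with hz
  have hz0 : z ≠ 0 := by
    intro h
    apply h0
    have h1 : z.re = 0 := by rw [h]; rfl
    have h2 : z.im = 0 := by rw [h]; rfl
    simp only [hz] at h1 h2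
    rw [h1, h2]; norm_num
  set r : ℝ := ‖z‖ with hr
  have hrpos : 0 < r := norm_pos_iff.2 hz0
  have hr2 : r ^ 2 = c ^ 2 + s ^ 2 := by
    rw [hr, ← Complex.normSq_eq_norm_sq, Complex.normSq_apply]
    simp only [hz]; ring
  have hcz : r * Real.cos z.arg = c := by
    rw [hr, Complex.norm_mul_cos_arg]
  have hsz : r * Real.sin z.arg = s := by
    rw [hr, Complex.norm_mul_sin_arg]
  have hw := hall (z.arg + 2 * π) (by have := Complex.neg_pi_lt_arg z; linarith [Real.pi_pos])
  rw [Real.cos_add_two_pi, Real.sin_add_two_pi] at hw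
  set C := Real.cos z.arg
  set S := Real.sin z.arg
  have hCS : C ^ 2 + S ^ 2 = 1 := by
    have := Real.sin_sq_add_cos_sq z.arg
    linarith
  have h1 := hw.2 x hx
  have h2 : ⟪C • n + S • q, x⟫ = r := by
    rw [inner_add_left, real_inner_smul_left, real_inner_smul_left, ← hc, ← hs, ← hcz, ← hsz]
    have : C * (r * C) + S * (r * S) = r * (C ^ 2 + S ^ 2) := by ring
    rw [this, hCS, mul_one]
  rw [h2] at h1
  have h3 : (2 * r) • (C • n + S • q) - x = (2 * c) • n + (2 * s) • q - x := by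
    rw [← hcz, ← hsz]; module
  rw [h3] at h1
  have hqN := hall (π / 2) (by positivity)
  rw [Real.cos_pi_div_two, Real.sin_pi_div_two, zero_smul, one_smul, zero_add] at hqN
  have h4 := hqN.2 _ h1
  have h5 : ⟪q, (2 * c) • n + (2 * s) • q - x⟫ = s := by
    rw [inner_sub_right, inner_add_right, real_inner_smul_right, real_inner_smul_right, hqn, hqq,
      ← hs]
    ring
  rw [h5] at h4
  have h6 : (2 * s) • q - ((2 * c) • n + (2 * s) • q - x) = x - (2 * c) • n := by module
  rw [h6] at h4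
  exact h4

end Pool.XR2
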